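import Pool.Agent.K7.H63.HO.Uni

/-!
# `ζ(3, x) / π ^ 3` and all relations between Hurwitz zeta, digamma and Gamma values in short intervals

Let `ζ(s, t) = ∑_{n ≥ 0} 1 / (n + t) ^ s` be the Hurwitz zeta function, so that `ζ(3, 1) = ζ(3)`. In every interval of
length `D ^ (-δ)` of a compact interval of positive numbers at most `C` of the numbers `ζ(3, k / D) / π ^ 3` are rational
with height at most `D ^ A`, or algebraic with degree at most `m` and height at most `D ^ A`; here `C` does not depend on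
`D`. More generally, consider the numbers `Γ(x_j + a_k)`, `ψ(x_j + a_k)`, `ζ(s, x_j + a_k)`, `2 ≤ s ≤ S`, at tuples
`(x_1, …, x_r)` of points of a number field of degree at most `m` in short intervals (or balls): for all but
`C ∑_j ∏_{i ≠ j} |Y_i|` of the tuples of `Y_1 × … × Y_r` they do not satisfy any nontrivial polynomial relation of degree at
most `d` in each of them, with coefficients `∑ ξ_i c_i` for arbitrary complex constants `ξ_1, …, ξ_g` (for instance powers of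
`π`, `ζ(3)`, `γ`) and algebraic integers `c_i` with conjugates at most `T ^ A`; the shifts `a_k` are any complex numbers
with nonnegative real part which are not congruent modulo `ℤ`.

Proof: the functions `Γ(t + a_k)`, `ψ(t + a_k)`, `ζ(s, t + a_k)` are algebraically independent over `ℂ(t)` (by an argument of
Hölder and Ostrowski for solutions of first order difference equations), and a determinant method for relations with
varying coefficients and arbitrary constants.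
-/

set_option autoImplicit false

open NumberField

namespace Pool.Agent.Results.MP_e47f08_nt.HurwitzZetaValues

/-- `F 0 = Γ`, `F 1 = ψ = Γ' / Γ` and, for `s ≥ 2`, `F s t = ζ(s, t) = ∑_{n ≥ 0} 1 / (n + t) ^ s`. -/
noncomputable def F (s : ℕ) (t : ℂ) : ℂ :=
  if s = 0 then Complex.Gamma t else if s = 1 then Complex.digamma t else ∑' n : ℕ, 1 / ((n : ℂ) + t) ^ s

/-- The complex number `z` is algebraic of degree at most `m` and height at most `H`: it is a root of a nonzero polynomial of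
degree at most `m` whose coefficients are integers of absolute value at most `H`. -/
def AlgLe (m : ℕ) (H : ℝ) (z : ℂ) : Prop :=
  ∃ p : Polynomial ℤ, p ≠ 0 ∧ p.natDegree ≤ m ∧ (∀ i, |(p.coeff i : ℝ)| ≤ H) ∧ Polynomial.aeval z p = 0

/-- The element `x` of the number field is a quotient of two algebraic integers all of whose conjugates have absolute value
at most `T`. -/
def Quot (K : Type) [Field K] [NumberField K] (T : ℝ) (x : K) : Prop :=
  ∃ u v : 𝓞 K, v ≠ 0 ∧ (∀ φ : K →+* ℂ, ‖φ u‖ ≤ T ∧ ‖φ v‖ ≤ T) ∧ x = (u : K) / v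

/-- The numbers `F s (x_j + a_k)`, `s ≤ S`, satisfy approximately, with error `ε`, a nontrivial polynomial relation of degree
at most `d` in each of them, with coefficients `∑ ξ_i c_i`, where the `c_i` are algebraic integers of `K` all of whose
conjugates have absolute value at most `M`. -/
def Related {K : Type} [Field K] [NumberField K] {r p g : ℕ} (S d : ℕ) (M ε : ℝ) (ι : K →+* ℂ) (ξ : Fin g → ℂ)
    (a : Fin p → ℂ) (x : Fin r → K) : Prop :=
  ∃ P : MvPolynomial (Fin r × Fin p × Fin (S + 1)) ℂ, (∀ u, P.degreeOf u ≤ d) ∧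
    (∀ s, ∃ c : Fin g → 𝓞 K, (∀ i (φ : K →+* ℂ), ‖φ (c i)‖ ≤ M) ∧ P.coeff s = ∑ i, ξ i * ι (c i)) ∧
    ∃ s₀, P.coeff s₀ ≠ 0 ∧
      ‖MvPolynomial.aeval (fun u : Fin r × Fin p × Fin (S + 1) => F u.2.2 (ι (x u.1) + a u.2.1)) P‖ ≤ ε * ‖P.coeff s₀‖

/-- (1) For tuples of points in short intervals or small balls of a compact part of the right half plane, all but
`C ∑_j ∏_{i ≠ j} |Y_i|` of the tuples of `Y_1 × … × Y_r` give numbers without relations, even approximate ones, over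
arbitrary constants.
(2) At most `C` of the rational numbers `x` of `[α, β]` with denominator at most `T` in a set of diameter at most `T ^ (-δ)`
are such that `F s (x + a_k)`, for instance `ζ(3, x)`, is `z θ` with `z` algebraic of degree at most `m` and height at
most `T ^ A`, for every `θ ≠ 0`, for instance `θ = π ^ 3`.
(3) At most `C` of the integers `n` of `[N, N ^ E]` are such that `F s (1 + 1 / n)`, for instance `ζ(3, 1 + 1 / n)`,
is `z θ` with `z` algebraic of degree at most `m` and height at most `n ^ A`. -/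
theorem result (m S : ℕ) (A : ℝ) :
    (∀ (r p d g : ℕ) (a : Fin p → ℂ), (∀ k, 0 ≤ (a k).re) → (∀ k l, ∀ n : ℤ, a k - a l = n → k = l) →
      ∀ α β δ : ℝ, 0 < α → 0 < δ → ∃ B C T₀ : ℝ, ∀ (K : Type) [Field K] [NumberField K], Module.finrank ℚ K ≤ m →
        ∀ (ι : K →+* ℂ) (ξ : Fin g → ℂ) (T : ℝ), T₀ ≤ T → ∀ Y : Fin r → Finset K,
          (∀ j, ∀ x ∈ Y j, α ≤ (ι x).re ∧ ‖ι x‖ ≤ β ∧ Quot K T x) →
          (∀ j, ∀ x ∈ Y j, ∀ y ∈ Y j, ‖ι x - ι y‖ ≤ T ^ (-δ)) →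
          ({x : Fin r → K | (∀ j, x j ∈ Y j) ∧ Related S d (T ^ A) (T ^ (-B)) ι ξ a x}.ncard : ℝ) ≤
            C * ∑ j, ∏ i ∈ Finset.univ.erase j, ((Y i).card : ℝ)) ∧
    (∀ (p : ℕ) (a : Fin p → ℂ), (∀ k, 0 ≤ (a k).re) → (∀ k l, ∀ n : ℤ, a k - a l = n → k = l) →
      ∀ α β δ : ℝ, 0 < α → 0 < δ → ∃ (C : ℕ) (T₀ : ℝ), ∀ (k : Fin p) (s : ℕ), s ≤ S → ∀ θ : ℂ, θ ≠ 0 →
        ∀ T : ℝ, T₀ ≤ T → ∀ Y : Finset ℚ, (∀ x ∈ Y, α ≤ (x : ℝ) ∧ (x : ℝ) ≤ β ∧ (x.den : ℝ) ≤ T) →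
          (∀ x ∈ Y, ∀ y ∈ Y, |(x : ℝ) - y| ≤ T ^ (-δ)) →
          {x : ℚ | x ∈ Y ∧ ∃ z : ℂ, AlgLe m (T ^ A) z ∧ F s ((x : ℂ) + a k) = z * θ}.ncard ≤ C) ∧
    (∀ E : ℕ, ∃ C N₀ : ℕ, ∀ s : ℕ, s ≤ S → ∀ θ : ℂ, θ ≠ 0 → ∀ N : ℕ, N₀ ≤ N →
      {n : ℕ | N ≤ n ∧ n ≤ N ^ E ∧ ∃ z : ℂ, AlgLe m ((n : ℝ) ^ A) z ∧ F s (1 + 1 / (n : ℂ)) = z * θ}.ncard ≤ C) := by
  classical
  have part2 : ∀ (A : ℝ) (p : ℕ) (a : Fin p → ℂ), (∀ k, 0 ≤ (a k).re) → (∀ k l, ∀ n : ℤ, a k - a l = n → k = l) →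
      ∀ α β δ : ℝ, 0 < α → 0 < δ → ∃ (C : ℕ) (T₀ : ℝ), ∀ (k : Fin p) (s : ℕ), s ≤ S → ∀ θ : ℂ, θ ≠ 0 →
        ∀ T : ℝ, T₀ ≤ T → ∀ Y : Finset ℚ, (∀ x ∈ Y, α ≤ (x : ℝ) ∧ (x : ℝ) ≤ β ∧ (x.den : ℝ) ≤ T) →
          (∀ x ∈ Y, ∀ y ∈ Y, |(x : ℝ) - y| ≤ T ^ (-δ)) →
          {x : ℚ | x ∈ Y ∧ ∃ z : ℂ, AlgLe m (T ^ A) z ∧ F s ((x : ℂ) + a k) = z * θ}.ncard ≤ C := by
    intro A p a ha hsep α β δ hα hδ
    obtain ⟨C, T₀, h⟩ := Pool.Agent.K7.H63.HO.oneValue m
      (fun (y : Fin p × Fin (S + 1)) (t : ℂ) => Pool.Agent.K7.H63.HO.H y.2 (t + a y.1))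
      (fun y t ht => by
        have h1 : AnalyticAt ℂ (fun t : ℂ => t + a y.1) t := by fun_prop
        exact AnalyticAt.fun_comp (f := fun t : ℂ => t + a y.1)
          (Pool.Agent.K7.H63.HO.H_an _ (Pool.Agent.K7.H63.HO.re_pos_add ht (ha _))) h1)
      (Pool.Agent.K7.H63.HO.fam1 p S a ha hsep) α β hα A δ hδ
    refine ⟨C, T₀, fun k s hs θ hθ T hT Y hY hYd => ?_⟩
    exact h (k, ⟨s, by omega⟩) θ hθ T hT Y hY hYd
  refine ⟨?_, fun p a ha hsep => part2 A p a ha hsep, ?_⟩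
  · intro r p d g a ha hsep α β δ hα hδ
    obtain ⟨B, C, T₀, hB, hC, hT₀, H⟩ := Pool.Agent.K7.H63.HO.core m r g d
      (fun (y : Fin p × Fin (S + 1)) (t : ℂ) => Pool.Agent.K7.H63.HO.H y.2 (t + a y.1))
      (fun y t ht => by
        have h1 : AnalyticAt ℂ (fun t : ℂ => t + a y.1) t := by fun_prop
        exact AnalyticAt.fun_comp (f := fun t : ℂ => t + a y.1)
          (Pool.Agent.K7.H63.HO.H_an _ (Pool.Agent.K7.H63.HO.re_pos_add ht (ha _))) h1)
      (Pool.Agent.K7.H63.HO.fam1 p S a ha hsep) α β hα A δ hδ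
    refine ⟨B, C, T₀, ?_⟩
    intro K _ _ hm ι ξ T hT Y hY hYd
    have hT0 : 0 ≤ T := by linarith
    set E : Finset (Fin r → K) := (Fintype.piFinset Y).filter fun x =>
      Related S d (T ^ A) (T ^ (-B)) ι ξ a x with hE
    have hES : {x : Fin r → K | (∀ j, x j ∈ Y j) ∧ Related S d (T ^ A) (T ^ (-B)) ι ξ a x} = (E : Set (Fin r → K)) := by
      ext x
      simp only [hE, Finset.coe_filter, Fintype.mem_piFinset, Set.mem_ofPred_eq]
    rw [hES, Set.ncard_coe_finset]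
    refine H K hm ι ξ T hT Y (fun j x hx => ?_) hYd E (fun x hx => ?_)
    · obtain ⟨h1, h2, u, v, hv, huv, hx⟩ := hY j x hx
      exact ⟨h1, h2, u, v, hv, Y120.house_le K hT0 fun φ => (huv φ).1, Y120.house_le K hT0 fun φ => (huv φ).2, hx⟩
    · rw [hE, Finset.mem_filter, Fintype.mem_piFinset] at hx
      exact ⟨hx.1, hx.2⟩
  · intro E
    obtain ⟨C, T₀, h⟩ := part2 |A| 1 (fun _ => 0) (fun _ => by simp) (fun k l _ _ => Subsingleton.elim k l) (1 / 2) 3
      (1 / ((E : ℝ) + 1)) (by norm_num) (by positivity)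
    refine ⟨C, max ⌈T₀⌉₊ 2, fun s hs θ hθ N hN => ?_⟩
    have hN2 : 2 ≤ N := (le_max_right _ _).trans hN
    have hNT : T₀ ≤ (N : ℝ) := (Nat.le_ceil T₀).trans (by exact_mod_cast (le_max_left _ _).trans hN)
    have hN1 : (1 : ℝ) ≤ N := by exact_mod_cast (by omega : 1 ≤ N)
    set T : ℝ := (N : ℝ) ^ (E + 1) with hT
    have hTN : (N : ℝ) ≤ T := by
      rw [hT]
      calc (N : ℝ) = (N : ℝ) ^ 1 := (pow_one _).symm
        _ ≤ (N : ℝ) ^ (E + 1) := pow_le_pow_right₀ hN1 (by omega)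
    have hTE : (N : ℝ) ^ E ≤ T := pow_le_pow_right₀ hN1 (by omega)
    have hT1 : 1 ≤ T := hN1.trans hTN
    set Y : Finset ℚ := (Finset.Icc N (N ^ E)).image fun n : ℕ => 1 + 1 / (n : ℚ) with hY
    have hinj : Function.Injective fun n : ℕ => 1 + 1 / (n : ℚ) := by
      intro n n' hnn
      simp only [add_right_inj, one_div, inv_inj] at hnn
      exact_mod_cast hnn
    have hmem : ∀ x ∈ Y, ∃ n : ℕ, N ≤ n ∧ n ≤ N ^ E ∧ x = 1 + 1 / (n : ℚ) := by
      intro x hx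
      obtain ⟨n, hn, rfl⟩ := Finset.mem_image.1 hx
      rw [Finset.mem_Icc] at hn
      exact ⟨n, hn.1, hn.2, rfl⟩
    have hrad : T ^ (-(1 / ((E : ℝ) + 1))) = 1 / (N : ℝ) := by
      rw [hT, ← Real.rpow_natCast, ← Real.rpow_mul (by linarith)]
      have : ((E + 1 : ℕ) : ℝ) * -(1 / ((E : ℝ) + 1)) = -1 := by
        push_cast
        field_simp
      rw [this, Real.rpow_neg_one, one_div]
    have hbd : ∀ n : ℕ, N ≤ n → 0 < 1 / (n : ℝ) ∧ 1 / (n : ℝ) ≤ 1 / (N : ℝ) := by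
      intro n hn
      have h1 : (N : ℝ) ≤ n := by exact_mod_cast hn
      exact ⟨one_div_pos.2 (by linarith), one_div_le_one_div_of_le (by linarith) h1⟩
    have hcount := h 0 s hs θ hθ T (hNT.trans hTN) Y (fun x hx => by
        obtain ⟨n, hn1, hn2, rfl⟩ := hmem x hx
        have h1 := hbd n hn1
        have h2 : 1 / (N : ℝ) ≤ 1 := by
          rw [div_le_one (by linarith)]
          exact hN1
        have hn0 : n ≠ 0 := by omega
        refine ⟨by push_cast; linarith, by push_cast; linarith, ?_⟩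
        have h3 : (1 + 1 / (n : ℚ)) = ((n + 1 : ℤ) : ℚ) / ((n : ℤ) : ℚ) := by
          have : (n : ℚ) ≠ 0 := by exact_mod_cast hn0
          push_cast
          field_simp
        have h4 : ((1 + 1 / (n : ℚ)).den : ℤ) ∣ (n : ℤ) := by
          rw [h3, ← Rat.divInt_eq_div]
          exact Rat.den_dvd _ _
        have h5 : (1 + 1 / (n : ℚ)).den ≤ n := Nat.le_of_dvd (by omega) (by exact_mod_cast h4)
        calc ((1 + 1 / (n : ℚ)).den : ℝ) ≤ n := by exact_mod_cast h5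
          _ ≤ (N : ℝ) ^ E := by exact_mod_cast hn2
          _ ≤ T := hTE) (fun x hx y hy => by
        obtain ⟨n, hn1, -, rfl⟩ := hmem x hx
        obtain ⟨n', hn1', -, rfl⟩ := hmem y hy
        have h1 := hbd n hn1
        have h2 := hbd n' hn1'
        rw [hrad, abs_le]
        push_cast
        constructor <;> linarith)
    have hfin : {x : ℚ | x ∈ Y ∧ ∃ z : ℂ, AlgLe m (T ^ |A|) z ∧ F s ((x : ℂ) + (fun _ : Fin 1 => (0 : ℂ)) 0) = z * θ}.Finite :=
      Y.finite_toSet.subset fun x hx => hx.1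
    refine le_trans ?_ hcount
    rw [← Set.ncard_image_of_injective _ hinj]
    refine Set.ncard_le_ncard ?_ hfin
    rintro _ ⟨n, ⟨hn1, hn2, z, ⟨p, hp0, hpm, hpH, hpz⟩, hz⟩, rfl⟩
    refine ⟨Finset.mem_image_of_mem _ (Finset.mem_Icc.2 ⟨hn1, hn2⟩), z, ⟨p, hp0, hpm, fun i => (hpH i).trans ?_, hpz⟩, ?_⟩
    · have h1 : (1 : ℝ) ≤ n := by exact_mod_cast (by omega : 1 ≤ n)
      calc (n : ℝ) ^ A ≤ (n : ℝ) ^ |A| := Real.rpow_le_rpow_of_exponent_le h1 (le_abs_self A)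
        _ ≤ T ^ |A| := Real.rpow_le_rpow (by linarith) (by
            have : (n : ℝ) ≤ (N : ℝ) ^ E := by exact_mod_cast hn2
            exact this.trans hTE) (abs_nonneg A)
    · rw [← hz]
      push_cast
      simp

end Pool.Agent.Results.MP_e47f08_nt.HurwitzZetaValues
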