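import Pool.Agent.K7.H55.HZ.Count

/-!
# `ζ(3, x) / π ^ 3` at the rational approximations of almost all points

Let `ζ(s, x) = ∑_{n ≥ 0} 1 / (n + x) ^ s` be the Hurwitz zeta function, so that `ζ(3, 1) = ζ(3)`. For all positive numbers
`X` outside a set of Hausdorff dimension zero, and all `τ > 0`, `m`, `A`, only finitely many of the rational approximations
`x` of `X` with `|x - X| ≤ κ den(x) ^ (-τ)` are such that `ζ(3, x) / π ^ 3` is rational, or algebraic of degree at most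
`m`, of height at most `den(x) ^ A`. More generally, for rational approximations `(x_1, …, x_r)` of the points of
`(0, ∞) ^ r` outside a set of Hausdorff dimension at most `2 (r - 1) / τ` the numbers `Γ(x_j + a_k)`, `ψ(x_j + a_k)`,
`ζ(s, x_j + a_k)`, `2 ≤ s ≤ S`, do not satisfy any polynomial relation of bounded degree with coefficients `∑ ξ_i c_i`,
`c_i` integers of polynomial size, even approximately; `ξ_1, …, ξ_g` are given complex numbers (for instance products of powers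
of `π`, `ζ(3)` and Euler's constant) and the `a_k` are given shifts.

This is deduced from the bounds for the number of exceptional points in short intervals in `HurwitzZetaValues`, by a
count over all cells and dyadic ranges of heights and the Hausdorff-Cantelli lemma.
-/

set_option autoImplicit false

open Filter Topology

namespace Pool.Agent.Results.MP_e47f08_nt.ApproximationsOfPoints

open Pool.Agent.Results.MP_e47f08_nt.HurwitzZetaValues

/-- the height of a tuple of rational numbers: the largest denominator -/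
def height {r : ℕ} (t : Fin r → ℚ) : ℕ := max 1 (Finset.univ.sup fun k => (t k).den)

/-- The numbers `F s (x_j + a_k)`, `s ≤ S`, where `F 0 = Γ`, `F 1 = ψ`, `F s = ζ(s, ·)` for `s ≥ 2`, satisfy
approximately, with error `ε`, a nontrivial polynomial relation of degree at most `d` in each of them, with coefficients
`∑ ξ_i c_i`, where the `c_i` are integers of absolute value at most `M`. -/
def Related {r p g : ℕ} (S d : ℕ) (M ε : ℝ) (ξ : Fin g → ℂ) (a : Fin p → ℂ) (x : Fin r → ℚ) : Prop :=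
  ∃ P : MvPolynomial (Fin r × Fin p × Fin (S + 1)) ℂ, (∀ u, P.degreeOf u ≤ d) ∧
    (∀ s, ∃ c : Fin g → ℤ, (∀ i, |(c i : ℝ)| ≤ M) ∧ P.coeff s = ∑ i, ξ i * c i) ∧
    ∃ s₀, P.coeff s₀ ≠ 0 ∧
      ‖MvPolynomial.aeval (fun u : Fin r × Fin p × Fin (S + 1) => F u.2.2 ((x u.1 : ℂ) + a u.2.1)) P‖ ≤ ε * ‖P.coeff s₀‖

/-- the parameters of the countably many conditions -/
abbrev Index : Type := ℕ × ℕ × ℚ × ℕ

/-- the bad tuples for one set of parameters -/
def Bad {r p g : ℕ} (S : ℕ) (ξ : Fin g → ℂ) (a : Fin p → ℂ) (i : Index) (B : ℝ) (t : Fin r → ℚ) : Prop :=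
  (0 < i.2.2.1 ∧ 1 ≤ i.2.2.2) ∧ ((∀ k, (i.2.2.1 : ℝ) ≤ (t k : ℝ) ∧ (t k : ℝ) ≤ (i.2.2.2 : ℝ)) ∧
    Pool.Agent.K7.H55.HZ.Rel S i.1 ((Pool.Agent.K7.H55.RH.height t : ℝ) ^ (i.2.1 : ℝ))
      ((Pool.Agent.K7.H55.RH.height t : ℝ) ^ (-B)) ξ a t)

theorem cnt {r p g : ℕ} (hr : 1 ≤ r) (S : ℕ) (ξ : Fin g → ℂ) (a : Fin p → ℂ) (ha : ∀ k, 0 ≤ (a k).re)
    (hsep : ∀ k l, ∀ n : ℤ, a k - a l = n → k = l) (i : Index) (e : ℝ) (he : 0 < e) :
    ∃ B C : ℝ, ∀ T : ℝ, 1 ≤ T →
      {t : Fin r → ℚ | Bad S ξ a i B t ∧ (Pool.Agent.K7.H55.RH.height t : ℝ) ≤ T}.Finite ∧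
      (({t : Fin r → ℚ | Bad S ξ a i B t ∧ (Pool.Agent.K7.H55.RH.height t : ℝ) ≤ T}.ncard : ℕ) : ℝ) ≤
        C * T ^ (2 * ((r : ℝ) - 1) + e) := by
  obtain ⟨d, A, α, β⟩ := i
  by_cases h : 0 < α ∧ 1 ≤ β
  · obtain ⟨B, C, hB, hC, H⟩ := Pool.Agent.K7.H55.HZ.shell r p d g S hr a ha hsep α β A e (by exact_mod_cast h.1)
      (by exact_mod_cast h.2) (Nat.cast_nonneg _) he
    have hr' : (0 : ℝ) ≤ (r : ℝ) - 1 := by
      have : (1 : ℝ) ≤ r := by exact_mod_cast hr
      linarith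
    obtain ⟨C', H'⟩ := Pool.Agent.K7.H55.HZ.dyadic (fun t : Fin r → ℚ => (Pool.Agent.K7.H55.RH.height t : ℝ))
      Pool.Agent.K7.H55.RH.one_le_height (Bad S ξ a (d, A, α, β) B) (σ := 2 * ((r : ℝ) - 1) + e) (by linarith) hC (fun T hT => by
        obtain ⟨h1, h2⟩ := H ξ T hT
        have e1 : {t : Fin r → ℚ | Bad S ξ a (d, A, α, β) B t ∧ T / 2 < (Pool.Agent.K7.H55.RH.height t : ℝ) ∧
            (Pool.Agent.K7.H55.RH.height t : ℝ) ≤ T} =
            {t : Fin r → ℚ | ((∀ k, (α : ℝ) ≤ (t k : ℝ) ∧ (t k : ℝ) ≤ (β : ℝ)) ∧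
              Pool.Agent.K7.H55.HZ.Rel S d ((Pool.Agent.K7.H55.RH.height t : ℝ) ^ (A : ℝ))
                ((Pool.Agent.K7.H55.RH.height t : ℝ) ^ (-B)) ξ a t) ∧ T / 2 < (Pool.Agent.K7.H55.RH.height t : ℝ) ∧
              (Pool.Agent.K7.H55.RH.height t : ℝ) ≤ T} := by
          ext t
          constructor
          · rintro ⟨⟨-, h3⟩, h4⟩
            exact ⟨h3, h4⟩
          · rintro ⟨h3, h4⟩
            exact ⟨⟨h, h3⟩, h4⟩
        rw [e1]
        exact ⟨h1, h2⟩)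
    exact ⟨B, C', H'⟩
  · refine ⟨0, 0, fun T hT => ?_⟩
    have e1 : {t : Fin r → ℚ | Bad S ξ a (d, A, α, β) 0 t ∧ (Pool.Agent.K7.H55.RH.height t : ℝ) ≤ T} = ∅ := by
      rw [Set.eq_empty_iff_forall_notMem]
      rintro t ⟨⟨h3, -⟩, -⟩
      exact h h3
    rw [e1]
    simp

theorem finite_of_bounded {r : ℕ} (R T : ℝ) :
    {t : Fin r → ℚ | (∀ k, |(t k : ℝ)| ≤ R) ∧ (height t : ℝ) ≤ T}.Finite := by
  have h := Set.Finite.pi (ι := Fin r) (fun _ : Fin r => Pool.Agent.K7.H55.RH.box_finite R T)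
  refine h.subset ?_
  rintro t ⟨h1, h2⟩
  rw [Set.mem_pi]
  intro k _
  exact ⟨h1 k, (Pool.Agent.K7.H55.RH.den_le_height t k).trans h2⟩

/-- the general form -/
theorem general (r p g S : ℕ) (hr : 1 ≤ r) (a : Fin p → ℂ) (ha : ∀ k, 0 ≤ (a k).re)
    (hsep : ∀ k l, ∀ n : ℤ, a k - a l = n → k = l) (ξ : Fin g → ℂ) (τ : ℝ) (hτ : 0 < τ) :
    ∃ E : Set (Fin r → ℝ), dimH E ≤ ENNReal.ofReal (2 * ((r : ℝ) - 1) / τ) ∧
      ∀ X : Fin r → ℝ, (∀ k, 0 < X k) → X ∉ E → ∀ (d : ℕ) (A : ℝ), ∃ B : ℝ, ∀ κ : ℝ,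
        {t : Fin r → ℚ | dist (fun k => (t k : ℝ)) X ≤ κ * (height t : ℝ) ^ (-τ) ∧
          Related S d ((height t : ℝ) ^ A) ((height t : ℝ) ^ (-B)) ξ a t}.Finite := by
  have hr' : (0 : ℝ) ≤ (r : ℝ) - 1 := by
    have : (1 : ℝ) ≤ r := by exact_mod_cast hr
    linarith
  have key : ∀ (i : Index) (n : ℕ), ∃ (B : ℝ) (E : Set (Fin r → ℝ)),
      dimH E ≤ ENNReal.ofReal ((2 * ((r : ℝ) - 1) + 1 / ((n : ℝ) + 1)) / τ) ∧
      ∀ X : Fin r → ℝ, X ∉ E → ∀ κ : ℝ,
        {t : Fin r → ℚ | dist (fun k => (t k : ℝ)) X ≤ κ * (Pool.Agent.K7.H55.RH.height t : ℝ) ^ (-τ) ∧ Bad S ξ a i B t}.Finite := by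
    intro i n
    have hn : 0 < 1 / ((n : ℝ) + 1) := by positivity
    obtain ⟨B, C, H⟩ := cnt (r := r) hr S ξ a ha hsep i (1 / ((n : ℝ) + 1)) hn
    obtain ⟨E, hE, hE'⟩ := Pool.Agent.R559.NP.near_dim (T := Fin r → ℚ) (X := Fin r → ℝ)
      (H := fun t => (Pool.Agent.K7.H55.RH.height t : ℝ)) Pool.Agent.K7.H55.RH.one_le_height
      (Bad := Bad S ξ a i B) (s := 2 * ((r : ℝ) - 1) + 1 / ((n : ℝ) + 1)) (by positivity) hτ (fun ε hε => by
        refine ⟨|C|, fun T hT => ?_⟩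
        obtain ⟨h1, h2⟩ := H T hT
        refine ⟨h1, h2.trans ?_⟩
        have h3 : T ^ (2 * ((r : ℝ) - 1) + 1 / ((n : ℝ) + 1)) ≤ T ^ (2 * ((r : ℝ) - 1) + 1 / ((n : ℝ) + 1) + ε) :=
          Real.rpow_le_rpow_of_exponent_le hT (by linarith)
        have h4 : 0 ≤ T ^ (2 * ((r : ℝ) - 1) + 1 / ((n : ℝ) + 1)) := by positivity
        calc C * T ^ (2 * ((r : ℝ) - 1) + 1 / ((n : ℝ) + 1)) ≤ |C| * T ^ (2 * ((r : ℝ) - 1) + 1 / ((n : ℝ) + 1)) :=
              mul_le_mul_of_nonneg_right (le_abs_self C) h4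
          _ ≤ _ := mul_le_mul_of_nonneg_left h3 (abs_nonneg _))
      (fun t => fun k => (t k : ℝ))
    exact ⟨B, E, hE, hE'⟩
  choose B E hE hE' using key
  refine ⟨⋃ i, ⋂ n, E i n, ?_, ?_⟩
  · rw [dimH_iUnion]
    refine iSup_le fun i => ?_
    have hlim : Tendsto (fun n : ℕ => ENNReal.ofReal ((2 * ((r : ℝ) - 1) + 1 / ((n : ℝ) + 1)) / τ)) atTop
        (𝓝 (ENNReal.ofReal (2 * ((r : ℝ) - 1) / τ))) := by
      apply ENNReal.tendsto_ofReal
      have h1 : Tendsto (fun n : ℕ => (2 * ((r : ℝ) - 1) + 1 / ((n : ℝ) + 1)) / τ) atTop (𝓝 ((2 * ((r : ℝ) - 1) + 0) / τ)) :=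
        (tendsto_const_nhds.add tendsto_one_div_add_atTop_nhds_zero_nat).div_const τ
      rwa [add_zero] at h1
    refine ge_of_tendsto' hlim fun n => ?_
    exact (dimH_mono (Set.iInter_subset _ n)).trans (hE i n)
  · intro X hX0 hX d A
    rw [Set.mem_iUnion] at hX
    push Not at hX
    have hne : Nonempty (Fin r) := ⟨⟨0, hr⟩⟩
    obtain ⟨α', hα0, hα⟩ : ∃ α' : ℚ, 0 < α' ∧ ∀ k, (α' : ℝ) < X k := by
      obtain ⟨k₀, hk₀⟩ := Finite.exists_min X
      obtain ⟨q, hq1, hq2⟩ := exists_rat_btwn (hX0 k₀)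
      exact ⟨q, by exact_mod_cast hq1, fun k => hq2.trans_le (hk₀ k)⟩
    obtain ⟨β', hβ1, hβ⟩ : ∃ β' : ℕ, 1 ≤ β' ∧ ∀ k, X k < (β' : ℝ) := by
      obtain ⟨k₀, hk₀⟩ := Finite.exists_max X
      obtain ⟨q, hq⟩ := exists_nat_gt (X k₀)
      refine ⟨q + 1, by omega, fun k => ?_⟩
      push_cast
      linarith [hk₀ k]
    obtain ⟨A', hA'⟩ := exists_nat_ge A
    have hXi := hX (d, A', α', β')
    rw [Set.mem_iInter] at hXi
    push Not at hXi
    obtain ⟨n, hn⟩ := hXi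
    refine ⟨B (d, A', α', β') n, fun κ => ?_⟩
    have h1 := hE' (d, A', α', β') n X hn κ
    -- distance to the complement of the box
    obtain ⟨δ, hδ, hδ'⟩ : ∃ δ : ℝ, 0 < δ ∧ ∀ k, δ ≤ X k - α' ∧ δ ≤ β' - X k := by
      obtain ⟨k₀, hk₀⟩ := Finite.exists_min fun k => min (X k - α') (β' - X k)
      refine ⟨min (X k₀ - α') (β' - X k₀), lt_min (by linarith [hα k₀]) (by linarith [hβ k₀]),
        fun k => ?_⟩
      exact ⟨(hk₀ k).trans (min_le_left _ _), (hk₀ k).trans (min_le_right _ _)⟩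
    set R : ℝ := ‖X‖ + |κ| with hR
    set T : ℝ := (|κ| / δ) ^ (1 / τ) with hT
    refine (h1.union (finite_of_bounded (r := r) R T)).subset ?_
    rintro t ⟨h2, h5⟩
    have hH1 : (1 : ℝ) ≤ (height t : ℝ) := Pool.Agent.K7.H55.RH.one_le_height t
    have hHp : 0 < (height t : ℝ) ^ (-τ) := by positivity
    have hH2 : (height t : ℝ) ^ (-τ) ≤ 1 := Real.rpow_le_one_of_one_le_of_nonpos hH1 (by linarith)
    have hdk : ∀ k, |(t k : ℝ) - X k| ≤ |κ| * (height t : ℝ) ^ (-τ) := by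
      intro k
      have h6 := dist_le_pi_dist (fun k => (t k : ℝ)) X k
      rw [Real.dist_eq] at h6
      exact h6.trans (h2.trans (mul_le_mul_of_nonneg_right (le_abs_self κ) hHp.le))
    by_cases hin : ∀ k, (α' : ℝ) ≤ (t k : ℝ) ∧ (t k : ℝ) ≤ (β' : ℝ)
    · left
      refine ⟨h2, ⟨hα0, hβ1⟩, hin, ?_⟩
      exact Pool.Agent.K7.H55.HZ.Rel.mono (Real.rpow_le_rpow_of_exponent_le hH1 hA') le_rfl h5
    · right
      refine ⟨fun k => ?_, ?_⟩
      · have h6 := hdk k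
        have h7 : |X k| ≤ ‖X‖ := norm_le_pi_norm X k
        have h8 : |(t k : ℝ)| ≤ |(t k : ℝ) - X k| + |X k| := by
          have := abs_add_le ((t k : ℝ) - X k) (X k)
          rwa [sub_add_cancel] at this
        have h9 : |κ| * (height t : ℝ) ^ (-τ) ≤ |κ| :=
          mul_le_of_le_one_right (abs_nonneg _) hH2
        rw [hR]
        linarith
      · push Not at hin
        obtain ⟨k, hk⟩ := hin
        have h6 : δ ≤ |(t k : ℝ) - X k| := by
          by_cases h7 : (α' : ℝ) ≤ (t k : ℝ)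
          · have h8 := hk h7
            have h9 := (hδ' k).2
            rw [abs_of_pos (by linarith)]
            linarith
          · push Not at h7
            have h9 := (hδ' k).1
            rw [abs_of_neg (by linarith)]
            linarith
        have h7 : δ ≤ |κ| * (height t : ℝ) ^ (-τ) := h6.trans (hdk k)
        have hHp' : 0 < (height t : ℝ) ^ τ := by positivity
        have h8 : (height t : ℝ) ^ τ ≤ |κ| / δ := by
          rw [le_div_iff₀ hδ]
          rw [Real.rpow_neg (by linarith), ← div_eq_mul_inv, le_div_iff₀ hHp'] at h7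
          linarith
        rw [hT]
        calc (height t : ℝ) = ((height t : ℝ) ^ τ) ^ (1 / τ) := by
              rw [← Real.rpow_mul (by linarith), mul_one_div_cancel hτ.ne', Real.rpow_one]
          _ ≤ (|κ| / δ) ^ (1 / τ) := Real.rpow_le_rpow hHp'.le h8 (by positivity)

/-- the polynomial relation which expresses that `ζ(3, x) / π ^ 3` is algebraic -/
theorem related_of_algLe (m : ℕ) {M ε : ℝ} (hM : 0 ≤ M) (hε : 0 ≤ ε) (x : ℚ) {z : ℂ} (hz : AlgLe m M z)
    (h : ∑' n : ℕ, 1 / ((n : ℂ) + x) ^ 3 = z * (Real.pi : ℂ) ^ 3) :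
    Related 3 m M ε (fun i : Fin (m + 1) => (Real.pi : ℂ) ^ (3 * (m - i))) (fun _ : Fin 1 => 0) (fun _ : Fin 1 => x) := by
  classical
  obtain ⟨q, hq0, hqd, hqc, hqz⟩ := hz
  set v : Fin 1 × Fin 1 × Fin (3 + 1) := (0, 0, 3) with hv
  have hpi : (Real.pi : ℂ) ≠ 0 := by exact_mod_cast Real.pi_ne_zero
  set P : MvPolynomial (Fin 1 × Fin 1 × Fin (3 + 1)) ℂ :=
    ∑ j : Fin (m + 1), MvPolynomial.monomial (Finsupp.single v (j : ℕ)) ((Real.pi : ℂ) ^ (3 * (m - j)) * (q.coeff j : ℂ)) with hP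
  have hcoeff : ∀ s, P.coeff s = ∑ j : Fin (m + 1), (Real.pi : ℂ) ^ (3 * (m - j)) *
      ((if Finsupp.single v (j : ℕ) = s then q.coeff j else 0 : ℤ) : ℂ) := by
    intro s
    rw [hP, MvPolynomial.coeff_sum]
    apply Finset.sum_congr rfl
    intro j _
    rw [MvPolynomial.coeff_monomial]
    split_ifs with h1
    · rfl
    · simp
  refine ⟨P, fun u => ?_, fun s => ⟨fun j => if Finsupp.single v (j : ℕ) = s then q.coeff j else 0, fun j => ?_, hcoeff s⟩, ?_⟩
  · rw [hP]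
    refine (MvPolynomial.degreeOf_sum_le _ _ _).trans (Finset.sup_le fun j _ => ?_)
    by_cases h1 : ((Real.pi : ℂ) ^ (3 * (m - (j : ℕ))) * (q.coeff j : ℂ)) = 0
    · rw [h1, MvPolynomial.monomial_zero, MvPolynomial.degreeOf_zero]
      exact Nat.zero_le _
    · rw [MvPolynomial.degreeOf_monomial_eq _ _ h1, Finsupp.single_apply]
      split_ifs
      · omega
      · exact Nat.zero_le _
  · dsimp only
    split_ifs
    · exact hqc _
    · simpa using hM
  · obtain ⟨j, hj⟩ : ∃ j, q.coeff j ≠ 0 := by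
      by_contra h1
      push Not at h1
      exact hq0 (Polynomial.ext fun j => by rw [h1 j, Polynomial.coeff_zero])
    have hjm : j ≤ m := by
      by_contra h1
      push Not at h1
      exact hj (Polynomial.coeff_eq_zero_of_natDegree_lt (hqd.trans_lt h1))
    refine ⟨Finsupp.single v j, ?_, ?_⟩
    · rw [hcoeff, Finset.sum_eq_single (⟨j, by omega⟩ : Fin (m + 1))]
      · rw [if_pos rfl]
        exact mul_ne_zero (pow_ne_zero _ hpi) (by exact_mod_cast hj)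
      · intro i _ hi
        rw [if_neg, Int.cast_zero, mul_zero]
        intro h1
        apply hi
        have h2 := Finsupp.single_injective v h1
        exact Fin.ext h2
      · intro h1
        exact (h1 (Finset.mem_univ _)).elim
    · have hF : F ((v.2.2 : Fin (3 + 1)) : ℕ) ((x : ℂ) + 0) = z * (Real.pi : ℂ) ^ 3 := by
        have e : ((v.2.2 : Fin (3 + 1)) : ℕ) = 3 := rfl
        rw [e, add_zero]
        unfold F
        rw [if_neg (by norm_num), if_neg (by norm_num)]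
        exact h
      have h0 : MvPolynomial.aeval (fun u : Fin 1 × Fin 1 × Fin (3 + 1) => F u.2.2 ((x : ℂ) + 0)) P = 0 := by
        rw [hP, map_sum]
        simp only [MvPolynomial.aeval_monomial, Algebra.algebraMap_self, RingHom.id_apply]
        have e1 : ∀ j : Fin (m + 1), ((Real.pi : ℂ) ^ (3 * (m - (j : ℕ))) * (q.coeff j : ℂ)) *
            ((Finsupp.single v (j : ℕ)).prod fun i n => F (i.2.2 : ℕ) ((x : ℂ) + 0) ^ n) =
            (Real.pi : ℂ) ^ (3 * m) * ((q.coeff j : ℂ) * z ^ (j : ℕ)) := by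
          intro j
          rw [Finsupp.prod_single_index (by rw [pow_zero]), hF, mul_pow, ← pow_mul]
          have e2 : 3 * m = 3 * (m - (j : ℕ)) + 3 * (j : ℕ) := by
            have := j.2
            omega
          rw [e2, pow_add]
          ring
        rw [Finset.sum_congr rfl fun j _ => e1 j, ← Finset.mul_sum]
        have e3 : ∑ j : Fin (m + 1), (q.coeff j : ℂ) * z ^ (j : ℕ) = Polynomial.aeval z q := by
          rw [Polynomial.aeval_eq_sum_range' (Nat.lt_succ_of_le hqd), Finset.sum_range]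
          apply Finset.sum_congr rfl
          intro j _
          rw [zsmul_eq_mul]
        rw [e3, hqz, mul_zero]
      rw [h0, norm_zero]
      positivity

/-- **Theorem.** (1) Let `r ≥ 1`, `τ > 0`, let `a_1, …, a_p` be complex numbers with nonnegative real parts which are not
congruent modulo `ℤ`, and `ξ_1, …, ξ_g` complex numbers. There is a set `E` of points of `ℝ ^ r` of Hausdorff dimension at most
`2 (r - 1) / τ` such that for all `X` in `(0, ∞) ^ r` outside `E` and all `d`, `A` there is `B` such that for all `κ` only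
finitely many of the rational points `t` with `dist t X ≤ κ (height t) ^ (-τ)` are such that the numbers `Γ(t_j + a_k)`,
`ψ(t_j + a_k)`, `ζ(s, t_j + a_k)`, `2 ≤ s ≤ S`, satisfy, even only with the error `(height t) ^ (-B)`, a nontrivial
polynomial relation of degree at most `d` in each of them with coefficients `∑ ξ_i c_i`, `c_i` integers, `|c_i| ≤ (height t) ^ A`.
(2) There is a set `E` of real numbers of Hausdorff dimension zero such that for all `X > 0` outside `E` and all `τ > 0`, `m`,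
`A`, `κ` only finitely many of the rational numbers `x` with `|x - X| ≤ κ den(x) ^ (-τ)` are such that
`ζ(3, x) = ∑ 1 / (n + x) ^ 3` is `z π ^ 3` with `z` algebraic of degree at most `m` and height at most `den(x) ^ A`. -/
theorem result :
    (∀ (r p g S : ℕ), 1 ≤ r → ∀ a : Fin p → ℂ, (∀ k, 0 ≤ (a k).re) → (∀ k l, ∀ n : ℤ, a k - a l = n → k = l) →
      ∀ (ξ : Fin g → ℂ) (τ : ℝ), 0 < τ →
        ∃ E : Set (Fin r → ℝ), dimH E ≤ ENNReal.ofReal (2 * ((r : ℝ) - 1) / τ) ∧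
          ∀ X : Fin r → ℝ, (∀ k, 0 < X k) → X ∉ E → ∀ (d : ℕ) (A : ℝ), ∃ B : ℝ, ∀ κ : ℝ,
            {t : Fin r → ℚ | dist (fun k => (t k : ℝ)) X ≤ κ * (height t : ℝ) ^ (-τ) ∧
              Related S d ((height t : ℝ) ^ A) ((height t : ℝ) ^ (-B)) ξ a t}.Finite) ∧
    (∃ E : Set ℝ, dimH E = 0 ∧ ∀ X : ℝ, 0 < X → X ∉ E → ∀ (m : ℕ) (τ A κ : ℝ), 0 < τ →
      {x : ℚ | |(x : ℝ) - X| ≤ κ * (x.den : ℝ) ^ (-τ) ∧
        ∃ z : ℂ, AlgLe m ((x.den : ℝ) ^ A) z ∧ ∑' n : ℕ, 1 / ((n : ℂ) + x) ^ 3 = z * (Real.pi : ℂ) ^ 3}.Finite) := by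
  refine ⟨fun r p g S hr a ha hsep ξ τ hτ => general r p g S hr a ha hsep ξ τ hτ, ?_⟩
  have key : ∀ i : ℕ × ℕ, ∃ E : Set (Fin 1 → ℝ), dimH E = 0 ∧
      ∀ X : Fin 1 → ℝ, (∀ k, 0 < X k) → X ∉ E → ∀ (A : ℝ), ∃ B : ℝ, ∀ κ : ℝ,
        {t : Fin 1 → ℚ | dist (fun k => (t k : ℝ)) X ≤ κ * (height t : ℝ) ^ (-(1 / ((i.2 : ℝ) + 1))) ∧
          Related 3 i.1 ((height t : ℝ) ^ A) ((height t : ℝ) ^ (-B))
            (fun j : Fin (i.1 + 1) => (Real.pi : ℂ) ^ (3 * (i.1 - j))) (fun _ : Fin 1 => 0) t}.Finite := by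
    rintro ⟨m, n⟩
    obtain ⟨E, h1, h2⟩ := general 1 1 (m + 1) 3 le_rfl (fun _ : Fin 1 => (0 : ℂ)) (fun _ => by simp)
      (fun k l _ _ => Subsingleton.elim k l) (fun j : Fin (m + 1) => (Real.pi : ℂ) ^ (3 * (m - (j : ℕ)))) (1 / ((n : ℝ) + 1)) (by positivity)
    refine ⟨E, ?_, fun X hX hXE A => h2 X hX hXE m A⟩
    rw [Nat.cast_one, sub_self, mul_zero, zero_div, ENNReal.ofReal_zero] at h1
    exact le_antisymm h1 bot_le
  choose E hE hE' using key
  set c : ℝ → Fin 1 → ℝ := fun x _ => x with hc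
  have hiso : Isometry c := by
    apply Isometry.of_dist_eq
    intro x y
    exact dist_pi_const x y
  refine ⟨{x : ℝ | c x ∈ ⋃ i, E i}, ?_, ?_⟩
  · rw [← hiso.dimH_image]
    have h1 : dimH (c '' {x : ℝ | c x ∈ ⋃ i, E i}) ≤ dimH (⋃ i, E i) := by
      apply dimH_mono
      rintro _ ⟨x, hx, rfl⟩
      exact hx
    have h2 : dimH (⋃ i, E i) = 0 := by
      rw [dimH_iUnion]
      simp [hE]
    rw [h2] at h1
    exact le_antisymm h1 bot_le
  · intro X hX hXE m τ A κ hτ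
    have hXE' : ∀ i, c X ∉ E i := by
      intro i hi
      exact hXE (Set.mem_iUnion.2 ⟨i, hi⟩)
    obtain ⟨n, hn⟩ := exists_nat_one_div_lt hτ
    obtain ⟨B, hB⟩ := hE' (m, n) (c X) (fun _ => hX) (hXE' _) A
    have h1 := hB |κ|
    have hinj : Set.InjOn (fun x : ℚ => fun _ : Fin 1 => x) {x : ℚ | |(x : ℝ) - X| ≤ κ * (x.den : ℝ) ^ (-τ) ∧
        ∃ z : ℂ, AlgLe m ((x.den : ℝ) ^ A) z ∧ ∑' n : ℕ, 1 / ((n : ℂ) + x) ^ 3 = z * (Real.pi : ℂ) ^ 3} :=
      fun x _ y _ h => congrFun h 0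
    refine Set.Finite.of_finite_image (h1.subset ?_) hinj
    rintro _ ⟨x, ⟨h2, z, h3, h4⟩, rfl⟩
    have hd : (1 : ℝ) ≤ x.den := by exact_mod_cast x.den_pos
    have hh : ((height (fun _ : Fin 1 => x) : ℕ) : ℝ) = x.den := by
      unfold height
      have : (Finset.univ.sup fun k : Fin 1 => ((fun _ : Fin 1 => x) k).den) = x.den := by simp
      rw [this, max_eq_right (by exact_mod_cast x.den_pos)]
    refine ⟨?_, ?_⟩
    · rw [hh]
      have e : dist (fun k : Fin 1 => (((fun _ : Fin 1 => x) k : ℚ) : ℝ)) (c X) = |(x : ℝ) - X| := by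
        rw [hc]
        exact (dist_pi_const (β := Fin 1) (x : ℝ) X).trans (Real.dist_eq _ _)
      rw [e]
      calc |(x : ℝ) - X| ≤ κ * (x.den : ℝ) ^ (-τ) := h2
        _ ≤ |κ| * (x.den : ℝ) ^ (-τ) := mul_le_mul_of_nonneg_right (le_abs_self κ) (by positivity)
        _ ≤ |κ| * (x.den : ℝ) ^ (-(1 / ((n : ℝ) + 1))) := by
            apply mul_le_mul_of_nonneg_left _ (abs_nonneg _)
            exact Real.rpow_le_rpow_of_exponent_le hd (by linarith)
    · rw [hh]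
      exact related_of_algLe m (by positivity) (by positivity) x h3 h4

end Pool.Agent.Results.MP_e47f08_nt.ApproximationsOfPoints
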