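import Pool.Agent.K7.H63.MR.VecAt
import Pool.Agent.K7.H63.MR.JointChg
import Pool.Agent.Results.MP_e47f08_nt.AlternativePolynomial

/-!
# All blocks of digits in almost all multiples of `ζ(3)/π³` or of its companion

Let `x 0 = ζ(3)/π³` and `x 1 = 8 G - π⁵/(18 ζ(3)) + s (2/3) π²`, `s = 1` or `s = -1`, `G` Catalan's
constant.  By the starting files one of the two numbers is irrational.  Here it is shown that at
every large scale `N` one of the two numbers has the following property: in almost all of its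
integer multiples `m x`, `m ≤ M`, and of its translates `m x + y` with any real `y`, all blocks of
`l` digits in base `b` occur, at `c log N` or more of the first `N` places (for rational `x` this fails
if the blocks are long and `M` is a multiple of the denominator); and the same for the matrices of
digits of `R`-tuples of such multiples.  If `ζ(3)/π³` is rational, then `x 1` has this property at all
large scales `N`.

Proof: two scales `t` and `4001 t` without changes of digits between them in `Q x 0` and in `Q x 1`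
contradict the simultaneous measure of `AlternativePolynomial`; at a change of digits the number
`Q x b ^ k` is not near an integer, and then the numbers `m x b ^ k` are spread over the circle up to a
constant factor (`Pool/Agent/K7/H63/MR`).
-/

set_option autoImplicit false

namespace Pool.Agent.Results.MP_e47f08_nt.BlocksInMultiples

open Finset Pool.Agent.K7.H63.MR

/-- `ζ(3)` -/
noncomputable def zeta3 : ℝ := ∑' j : ℕ, 1 / ((j : ℝ) + 1) ^ 3

/-- Catalan's constant -/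
noncomputable def G : ℝ := ∑' j : ℕ, (-1 : ℝ) ^ j / (2 * (j : ℝ) + 1) ^ 2

/-- `x 0 = ζ(3)/π³`, `x 1 = 8 G - π⁵/(18 ζ(3)) + s (2/3) π²` -/
noncomputable def x (s : ℝ) (i : Fin 2) : ℝ :=
  if i = 0 then zeta3 / Real.pi ^ 3
  else 8 * G - Real.pi ^ 5 / (18 * zeta3) + s * (2 / 3 * Real.pi ^ 2)

/-- the `k`-th digit of `x` after the point in base `b` -/
noncomputable def digit (b : ℕ) (x : ℝ) (k : ℕ) : ℤ := ⌊x * (b : ℝ) ^ k⌋ % b

/-- the number of the places `k` in `[1, N]` such that for every row `j` the digits of `ξ j` in base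
`b` at the places `k, k + 1, …, k + l - 1` after the point are `D j 0, D j 1, …, D j (l - 1)` -/
noncomputable def occurrences {R l : ℕ} (b : ℕ) (D : Fin R → Fin l → Fin b) (N : ℕ)
    (ξ : Fin R → ℝ) : ℕ :=
  ((Icc 1 N).filter (fun k => ∀ (j : Fin R) (t : Fin l), digit b (ξ j) (k + t) = (D j t : ℕ))).card

/-- At least `(1 - η) M ^ R` of the vectors `m` in `[1, M] ^ R` are such that every `R × l` matrix of
digits in base `b` occurs at `X` or more of the places `1, …, N` in the tuple of the numbers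
`m j * ξ + y j`. -/
def Spread (b R l N M : ℕ) (η X ξ : ℝ) (y : Fin R → ℝ) : Prop :=
  (1 - η) * (M : ℝ) ^ R ≤
    ({m : Fin R → ℕ | (∀ j, 1 ≤ m j ∧ m j ≤ M) ∧ ∀ D : Fin R → Fin l → Fin b,
      X ≤ occurrences b D N (fun j => m j * ξ + y j)}.ncard : ℝ)

lemma measure (s : ℝ) (hs : s = 1 ∨ s = -1) : ∃ c : ℝ, 0 < c ∧ ∀ q : ℕ, 1 ≤ q →
    ∀ p : Fin 2 → ℤ, ∃ j ∈ (univ : Finset (Fin 2)), c ≤ (q : ℝ) ^ 3999 * |(q : ℝ) * x s j - p j| := by
  obtain ⟨⟨c, hc, h1⟩, -⟩ := Pool.Agent.Results.MP_e47f08_nt.AlternativePolynomial.result s hs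
  refine ⟨c, hc, fun q hq p => ?_⟩
  have hq0 : (0 : ℝ) < q := by exact_mod_cast (by omega : 0 < q)
  have h2 : c / ((q : ℝ) * q) ^ 2000 ≤
      max |x s 0 - (p 0 : ℝ) / q| |x s 1 - (p 1 : ℝ) / q| :=
    h1 (p 1) (p 0) q q hq hq
  have hkey : ∀ j : Fin 2, c / ((q : ℝ) * q) ^ 2000 ≤ |x s j - (p j : ℝ) / q| →
      c ≤ (q : ℝ) ^ 3999 * |(q : ℝ) * x s j - p j| := by
    intro j hj
    rw [div_le_iff₀ (by positivity)] at hj
    have e1 : |(q : ℝ) * x s j - p j| = q * |x s j - (p j : ℝ) / q| := by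
      rw [← abs_of_pos hq0, ← abs_mul, abs_of_pos hq0]
      congr 1
      field_simp
    have e2 : ((q : ℝ) * q) ^ 2000 = (q : ℝ) ^ 4000 := by ring
    rw [e2] at hj
    rw [e1]
    calc c ≤ |x s j - (p j : ℝ) / q| * (q : ℝ) ^ 4000 := hj
      _ = _ := by ring
  rcases max_choice |x s 0 - (p 0 : ℝ) / q| |x s 1 - (p 1 : ℝ) / q| with h3 | h3
  · rw [h3] at h2
    exact ⟨0, mem_univ _, hkey 0 h2⟩
  · rw [h3] at h2
    exact ⟨1, mem_univ _, hkey 1 h2⟩

lemma spread_of {b R l N M : ℕ} {η X ξ : ℝ} {y : Fin R → ℝ}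
    (h : (1 - η) * (M : ℝ) ^ R ≤
        (((Fintype.piFinset fun _ : Fin R => Icc 1 M).filter (fun m : Fin R → ℕ =>
          ∀ D : Fin R → Fin l → Fin b, X ≤
            occD b D N (fun j => m j * ξ + y j))).card : ℝ)) : Spread b R l N M η X ξ y := by
  unfold Spread
  refine h.trans (le_of_eq ?_)
  rw [← Set.ncard_coe_finset]
  congr 2
  ext m
  simp only [coe_filter, Fintype.mem_piFinset, mem_Icc, Set.mem_ofPred_eq]
  rfl

/-- The result. -/
theorem result (s : ℝ) (hs : s = 1 ∨ s = -1) (b : ℕ) (hb : 2 ≤ b) (R l : ℕ) (η : ℝ) (hη : 0 < η) :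
    (∃ c : ℝ, 0 < c ∧ ∃ M₀ N₀ : ℕ, ∀ N : ℕ, N₀ ≤ N → ∃ i : Fin 2, ∀ M : ℕ, M₀ ≤ M →
      ∀ y : Fin R → ℝ, Spread b R l N M η (c * Real.log N) (x s i) y) ∧
    (Irrational (zeta3 / Real.pi ^ 3) ∨ ∃ c : ℝ, 0 < c ∧ ∃ M₀ N₀ : ℕ, ∀ N : ℕ, N₀ ≤ N →
      ∀ M : ℕ, M₀ ≤ M → ∀ y : Fin R → ℝ, Spread b R l N M η (c * Real.log N) (x s 1) y) := by
  obtain ⟨c₀, hc₀, hm⟩ := measure s hs
  set κ : ℝ := 2 * Real.log ((3999 + 2 : ℕ) : ℝ) with hκ
  have hκ0 : 0 < κ := by
    have : 0 < Real.log ((3999 + 2 : ℕ) : ℝ) := Real.log_pos (by norm_num)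
    positivity
  -- the general step
  have step : ∀ q₀ : ℕ, 1 ≤ q₀ → ∃ c : ℝ, 0 < c ∧ ∃ M₀ N₀ Q : ℕ, q₀ ∣ Q ∧ ∀ N : ℕ, N₀ ≤ N →
      (0 ≤ Real.log N ∧ Real.log N / κ ≤ ∑ j : Fin 2, (chg b (Q * x s j) N : ℝ)) ∧ ∀ i : Fin 2,
      Real.log N / (2 * κ) ≤ (chg b (Q * x s i) N : ℝ) → ∀ M : ℕ, M₀ ≤ M →
      ∀ y : Fin R → ℝ, Spread b R l N M η (c * Real.log N) (x s i) y := by
    intro q₀ hq₀
    obtain ⟨Q, r, M₀, hQ, hdvd, H⟩ := mat_at hb R l q₀ hq₀ η hη
    obtain ⟨N₁, hN₁⟩ := joint_changes (univ : Finset (Fin 2)) (x s) 3999 c₀ hc₀ hm hb hQ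
    obtain ⟨N₂, hN₂⟩ := Filter.eventually_atTop.1
      ((Real.tendsto_log_atTop.comp (tendsto_natCast_atTop_atTop (R := ℝ))).eventually_ge_atTop
        (2 * κ * (4 * ((r : ℝ) * (r * l)) + 1)))
    refine ⟨1 / (16 * κ * (r + 1)), by positivity, M₀, N₁ + N₂, Q, hdvd, ?_⟩
    intro N hN
    have hlog := hN₂ N (by omega)
    simp only [Function.comp] at hlog
    refine ⟨⟨le_trans (by positivity) hlog, hN₁ N (by omega)⟩, ?_⟩
    intro i hi M hM y
    have h1 : 4 * ((r : ℝ) * (r * l)) + 1 ≤ Real.log N / (2 * κ) := by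
      rw [le_div_iff₀ (by positivity)]
      linarith
    have h2 := H (x s i) (Real.log N / (2 * κ)) N h1 hi M hM y
    have e : Real.log N / (2 * κ) / (8 * ((r : ℝ) + 1)) =
        1 / (16 * κ * (r + 1)) * Real.log N := by
      field_simp
      ring
    rw [e] at h2
    exact spread_of h2
  constructor
  · obtain ⟨c, hc, M₀, N₀, Q, -, h⟩ := step 1 le_rfl
    refine ⟨c, hc, M₀, N₀, fun N hN => ?_⟩
    obtain ⟨⟨h0, h1⟩, h2⟩ := h N hN
    rw [Fin.sum_univ_two] at h1
    by_cases h3 : Real.log N / (2 * κ) ≤ (chg b (Q * x s 0) N : ℝ)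
    · exact ⟨0, h2 0 h3⟩
    · refine ⟨1, h2 1 ?_⟩
      have e : Real.log N / κ = Real.log N / (2 * κ) + Real.log N / (2 * κ) := by
        field_simp
        norm_num
      push Not at h3
      linarith
  · by_cases hI : Irrational (zeta3 / Real.pi ^ 3)
    · exact Or.inl hI
    right
    obtain ⟨u, hu⟩ : ∃ u : ℚ, (u : ℝ) = zeta3 / Real.pi ^ 3 := by
      unfold Irrational at hI
      push Not at hI
      exact hI
    obtain ⟨c, hc, M₀, N₀, Q, ⟨Q', hQ'⟩, h⟩ := step u.den u.den_pos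
    refine ⟨c, hc, M₀, N₀, fun N hN => ?_⟩
    obtain ⟨⟨h0, h1⟩, h2⟩ := h N hN
    rw [Fin.sum_univ_two] at h1
    have hzero : chg b (Q * x s 0) N = 0 := by
      have hx0 : (Q : ℝ) * x s 0 = ((Q' * u.num : ℤ) : ℝ) := by
        have h3 : x s 0 = (u.num : ℝ) / (u.den : ℝ) := by
          have : x s 0 = zeta3 / Real.pi ^ 3 := by unfold x; rw [if_pos rfl]
          rw [this, ← hu]
          exact_mod_cast (Rat.num_div_den u).symm
        have hd : (u.den : ℝ) ≠ 0 := by exact_mod_cast u.den_pos.ne'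
        rw [h3, hQ']
        push_cast
        field_simp
      have hd : ∀ k, 1 ≤ k → dgb b (Q * x s 0) k = 0 := by
        intro k hk
        unfold dgb
        rw [hx0]
        have : ((Q' * u.num : ℤ) : ℝ) * (b : ℝ) ^ k = ((Q' * u.num * b ^ k : ℤ) : ℝ) := by
          push_cast; ring
        rw [this, Int.floor_intCast]
        obtain ⟨k', rfl⟩ := Nat.exists_eq_succ_of_ne_zero (by omega : k ≠ 0)
        rw [pow_succ, ← mul_assoc]
        exact Int.mul_emod_left _ _
      unfold chg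
      rw [card_eq_zero, filter_eq_empty_iff]
      intro k hk
      rw [mem_Icc] at hk
      rw [hd k hk.1, hd (k + 1) (by omega)]
      simp
    refine h2 1 ?_
    rw [hzero] at h1
    have e : Real.log N / κ = Real.log N / (2 * κ) + Real.log N / (2 * κ) := by
      field_simp
      norm_num
    have h3 : 0 ≤ Real.log N / (2 * κ) := by positivity
    push_cast at h1
    linarith

end Pool.Agent.Results.MP_e47f08_nt.BlocksInMultiples
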