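import Pool.Agent.K7.H63.HO.Zeta
import Pool.Agent.K7.H63.HO.CoreL

/-!
# The function `ζ(s) / π ^ s` at rational numbers `s` near `3`, and relations between `ζ(s)` and exponentials

The number `ζ(3) / π ^ 3` is the value at `s = 3` of the function `ζ(s) / π ^ s`, which has rational values at all even
integers. In every interval of length `T ^ (-δ)` of a compact interval which does not contain `1` at most `C` of the rational
numbers `s` with denominator at most `T` are such that `ζ(s) / π ^ s` is rational with height at most `T ^ A`, or algebraic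
with degree at most `m` and height at most `T ^ A`; here `C` does not depend on `T`. In particular at most `C` of the integers
`n` of `[N, N ^ E]` are such that `ζ(3 + 1 / n) / π ^ (3 + 1 / n)` is such a number with height at most `n ^ A`.

More generally let `b_1, …, b_k` be multiplicatively independent positive numbers, for instance `π`, or `2`, `π`. For all
but `C ∑_j ∏_{i ≠ j} |Y_i|` of the tuples `(s_1, …, s_r)` of `Y_1 × … × Y_r`, where the `Y_j` are sets of points of a number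
field of degree at most `m` in short intervals or small balls, for instance near `3, 5, 7, …`, the numbers `ζ(s_j)`,
`b_i ^ (s_j)` do not satisfy any nontrivial polynomial relation of degree at most `d` in each of them, even up to an error
`T ^ (-B)`, with coefficients `∑ ξ_l c_l` for arbitrary complex constants `ξ_1, …, ξ_g` and algebraic integers `c_l`
with conjugates at most `T ^ A`.

Proof: `ζ(s)`, `b_i ^ s` are algebraically independent over `ℂ(s)`, because of the zeros of `ζ` at `-2, -4, -6, …`, and a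
determinant method for relations with varying coefficients and arbitrary constants.
-/

set_option autoImplicit false

open NumberField

namespace Pool.Agent.Results.MP_e47f08_nt.RationalExponents

/-- The complex number `z` is algebraic of degree at most `m` and height at most `H`: it is a root of a nonzero polynomial of
degree at most `m` whose coefficients are integers of absolute value at most `H`. -/
def AlgLe (m : ℕ) (H : ℝ) (z : ℂ) : Prop :=
  ∃ p : Polynomial ℤ, p ≠ 0 ∧ p.natDegree ≤ m ∧ (∀ i, |(p.coeff i : ℝ)| ≤ H) ∧ Polynomial.aeval z p = 0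

/-- The element `x` of the number field is a quotient of two algebraic integers all of whose conjugates have absolute value
at most `T`. -/
def Quot (K : Type) [Field K] [NumberField K] (T : ℝ) (x : K) : Prop :=
  ∃ u v : 𝓞 K, v ≠ 0 ∧ (∀ φ : K →+* ℂ, ‖φ u‖ ≤ T ∧ ‖φ v‖ ≤ T) ∧ x = (u : K) / v

/-- The numbers `ζ(s_j)` (names `(j, none)`) and `b_i ^ (s_j)` (names `(j, some i)`). -/
noncomputable def num {r k : ℕ} (b : Fin k → ℝ) (s : Fin r → ℂ) (u : Fin r × Option (Fin k)) : ℂ :=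
  u.2.elim (riemannZeta (s u.1)) fun i => (b i : ℂ) ^ (s u.1)

/-- The numbers `ζ(s_j)`, `b_i ^ (s_j)` satisfy approximately, with error `ε`, a nontrivial polynomial relation of degree
at most `d` in each of them, with coefficients `∑ ξ_l c_l`, where the `c_l` are algebraic integers of `K` all of whose
conjugates have absolute value at most `M`. -/
def Related {K : Type} [Field K] [NumberField K] {r k g : ℕ} (d : ℕ) (M ε : ℝ) (ι : K →+* ℂ) (ξ : Fin g → ℂ)
    (b : Fin k → ℝ) (s : Fin r → K) : Prop :=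
  ∃ P : MvPolynomial (Fin r × Option (Fin k)) ℂ, (∀ u, P.degreeOf u ≤ d) ∧
    (∀ e, ∃ c : Fin g → 𝓞 K, (∀ l (φ : K →+* ℂ), ‖φ (c l)‖ ≤ M) ∧ P.coeff e = ∑ l, ξ l * ι (c l)) ∧
    ∃ e₀, P.coeff e₀ ≠ 0 ∧ ‖MvPolynomial.aeval (num b fun j => ι (s j)) P‖ ≤ ε * ‖P.coeff e₀‖

/-- (1) Tuples: all but `C ∑_j ∏_{i ≠ j} |Y_i|` of the tuples of `Y_1 × … × Y_r` give numbers `ζ(s_j)`, `b_i ^ (s_j)` without
relations, even approximate ones, over arbitrary constants.
(2) At most `C` of the rational numbers `s` of `[α, β]` with denominator at most `T` in a set of diameter at most `T ^ (-δ)`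
are such that `ζ(s) = z θ π ^ s` with `z` algebraic of degree at most `m` and height at most `T ^ A`.
(3) At most `C` of the integers `n` of `[N, N ^ E]` are such that `ζ(q + 1 / n) = z θ π ^ (q + 1 / n)` with
`z` algebraic of degree at most `m` and height at most `n ^ A`. -/
theorem result (m : ℕ) (A : ℝ) :
    (∀ (k : ℕ) (b : Fin k → ℝ), (∀ i, 0 < b i) → (∀ e : Fin k → ℤ, ∏ i, b i ^ e i = 1 → e = 0) →
      ∀ (r d g : ℕ) (L : Set ℂ), IsCompact L → (1 : ℂ) ∉ L → ∀ δ : ℝ, 0 < δ →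
      ∃ B C T₀ : ℝ, ∀ (K : Type) [Field K] [NumberField K], Module.finrank ℚ K ≤ m →
        ∀ (ι : K →+* ℂ) (ξ : Fin g → ℂ) (T : ℝ), T₀ ≤ T → ∀ Y : Fin r → Finset K,
          (∀ j, ∀ x ∈ Y j, ι x ∈ L ∧ Quot K T x) → (∀ j, ∀ x ∈ Y j, ∀ y ∈ Y j, ‖ι x - ι y‖ ≤ T ^ (-δ)) →
          ({s : Fin r → K | (∀ j, s j ∈ Y j) ∧ Related d (T ^ A) (T ^ (-B)) ι ξ b s}.ncard : ℝ) ≤
            C * ∑ j, ∏ i ∈ Finset.univ.erase j, ((Y i).card : ℝ)) ∧
    (∀ α β δ : ℝ, (β < 1 ∨ 1 < α) → 0 < δ → ∃ (C : ℕ) (T₀ : ℝ), ∀ θ : ℂ, θ ≠ 0 → ∀ T : ℝ, T₀ ≤ T → ∀ Y : Finset ℚ,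
      (∀ x ∈ Y, α ≤ (x : ℝ) ∧ (x : ℝ) ≤ β ∧ (x.den : ℝ) ≤ T) → (∀ x ∈ Y, ∀ y ∈ Y, |(x : ℝ) - y| ≤ T ^ (-δ)) →
      {s : ℚ | s ∈ Y ∧ ∃ z : ℂ, AlgLe m (T ^ A) z ∧ riemannZeta s = z * θ * (Real.pi : ℂ) ^ (s : ℂ)}.ncard ≤ C) ∧
    (∀ q E : ℕ, 2 ≤ q → ∃ C N₀ : ℕ, ∀ θ : ℂ, θ ≠ 0 → ∀ N : ℕ, N₀ ≤ N →
      {n : ℕ | N ≤ n ∧ n ≤ N ^ E ∧ ∃ z : ℂ, AlgLe m ((n : ℝ) ^ A) z ∧
        riemannZeta (q + 1 / (n : ℂ)) = z * θ * (Real.pi : ℂ) ^ ((q : ℂ) + 1 / (n : ℂ))}.ncard ≤ C) := by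
  classical
  have part2 : ∀ A α β δ : ℝ, (β < 1 ∨ 1 < α) → 0 < δ → ∃ (C : ℕ) (T₀ : ℝ), ∀ θ : ℂ, θ ≠ 0 → ∀ T : ℝ, T₀ ≤ T →
      ∀ Y : Finset ℚ, (∀ x ∈ Y, α ≤ (x : ℝ) ∧ (x : ℝ) ≤ β ∧ (x.den : ℝ) ≤ T) →
      (∀ x ∈ Y, ∀ y ∈ Y, |(x : ℝ) - y| ≤ T ^ (-δ)) →
      {s : ℚ | s ∈ Y ∧ ∃ z : ℂ, AlgLe m (T ^ A) z ∧ riemannZeta s = z * θ * (Real.pi : ℂ) ^ (s : ℂ)}.ncard ≤ C := by
    intro A α β δ hαβ hδ
    have hb : ∀ i : Fin 1, 0 < (fun _ : Fin 1 => Real.pi) i := fun _ => Real.pi_pos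
    have hne : ∀ t : ℝ, α ≤ t → t ≤ β → (t : ℂ) ≠ 1 := by
      intro t h1 h2 h
      have h3 : t = 1 := by exact_mod_cast h
      rcases hαβ with h4 | h4 <;> linarith
    obtain ⟨C, T₀, h⟩ := Pool.Agent.K7.H63.HO.ratioValue m (Pool.Agent.K7.H63.HO.ZF fun _ : Fin 1 => Real.pi) α β
      (fun y t h1 h2 => Pool.Agent.K7.H63.HO.ZF_an _ hb y (hne t h1 h2))
      (fun t h1 h2 => Pool.Agent.K7.H63.HO.zeta_locInd _ hb (by
        intro e he
        simp only [Finset.univ_unique, Finset.prod_singleton] at he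
        funext i
        rw [Subsingleton.elim i default]
        have h3 : (1 : ℝ) < Real.pi := by linarith [Real.pi_gt_three]
        exact (zpow_eq_one_iff_right₀ Real.pi_pos.le h3.ne').1 he) _ (hne t h1 h2)) A δ hδ
    refine ⟨C, T₀, fun θ hθ T hT Y hY hYd => ?_⟩
    exact h none (some (some 0)) (by simp) θ hθ T hT Y hY hYd
  refine ⟨?_, part2 A, ?_⟩
  · intro k b hb hind r d g L hL h1L δ hδ
    have hne : ∀ t ∈ L, t ≠ 1 := fun t ht h => h1L (h ▸ ht)
    obtain ⟨B, C, T₀, hB, hC, hT₀, H⟩ := Pool.Agent.K7.H63.HO.coreL m r g d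
      (fun _ => Pool.Agent.K7.H63.HO.ZF b) L hL (fun _ y t ht => Pool.Agent.K7.H63.HO.ZF_an b hb y (hne t ht))
      (fun _ t ht => Pool.Agent.K7.H63.HO.zeta_locInd b hb hind t (hne t ht)) A δ hδ
    refine ⟨B, C, T₀, ?_⟩
    intro K _ _ hm ι ξ T hT Y hY hYd
    have hT0 : 0 ≤ T := by linarith
    set E : Finset (Fin r → K) := (Fintype.piFinset Y).filter fun x => Related d (T ^ A) (T ^ (-B)) ι ξ b x with hE
    have hES : {x : Fin r → K | (∀ j, x j ∈ Y j) ∧ Related d (T ^ A) (T ^ (-B)) ι ξ b x} = (E : Set (Fin r → K)) := by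
      ext x
      simp only [hE, Finset.coe_filter, Fintype.mem_piFinset, Set.mem_ofPred_eq]
    rw [hES, Set.ncard_coe_finset]
    refine H K hm ι ξ T hT Y (fun j x hx => ?_) hYd E (fun x hx => ?_)
    · obtain ⟨h1, u, v, hv, huv, hx⟩ := hY j x hx
      exact ⟨h1, u, v, hv, Y120.house_le K hT0 fun φ => (huv φ).1, Y120.house_le K hT0 fun φ => (huv φ).2, hx⟩
    · rw [hE, Finset.mem_filter, Fintype.mem_piFinset] at hx
      exact ⟨hx.1, hx.2⟩
  · intro q E hq
    obtain ⟨C, T₀, h⟩ := part2 |A| 2 (q + 1) (1 / ((E : ℝ) + 1)) (Or.inr (by norm_num)) (by positivity)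
    refine ⟨C, max ⌈T₀⌉₊ 2, fun θ hθ N hN => ?_⟩
    have hN2 : 2 ≤ N := (le_max_right _ _).trans hN
    have hNT : T₀ ≤ (N : ℝ) := (Nat.le_ceil T₀).trans (by exact_mod_cast (le_max_left _ _).trans hN)
    have hN1 : (1 : ℝ) ≤ N := by exact_mod_cast (by omega : 1 ≤ N)
    have hq2 : (2 : ℝ) ≤ q := by exact_mod_cast hq
    set T : ℝ := (N : ℝ) ^ (E + 1) with hT
    have hTN : (N : ℝ) ≤ T := by
      rw [hT]
      calc (N : ℝ) = (N : ℝ) ^ 1 := (pow_one _).symm
        _ ≤ (N : ℝ) ^ (E + 1) := pow_le_pow_right₀ hN1 (by omega)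
    have hTE : (N : ℝ) ^ E ≤ T := pow_le_pow_right₀ hN1 (by omega)
    have hT1 : 1 ≤ T := hN1.trans hTN
    set Y : Finset ℚ := (Finset.Icc N (N ^ E)).image fun n : ℕ => (q : ℚ) + 1 / (n : ℚ) with hY
    have hinj : Function.Injective fun n : ℕ => (q : ℚ) + 1 / (n : ℚ) := by
      intro n n' hnn
      simp only [add_right_inj, one_div, inv_inj] at hnn
      exact_mod_cast hnn
    have hmem : ∀ x ∈ Y, ∃ n : ℕ, N ≤ n ∧ n ≤ N ^ E ∧ x = (q : ℚ) + 1 / (n : ℚ) := by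
      intro x hx
      obtain ⟨n, hn, rfl⟩ := Finset.mem_image.1 hx
      rw [Finset.mem_Icc] at hn
      exact ⟨n, hn.1, hn.2, rfl⟩
    have hrad : T ^ (-(1 / ((E : ℝ) + 1))) = 1 / (N : ℝ) := by
      rw [hT, ← Real.rpow_natCast, ← Real.rpow_mul (by linarith)]
      have : ((E + 1 : ℕ) : ℝ) * -(1 / ((E : ℝ) + 1)) = -1 := by
        push_cast
        field_simp
      rw [this, Real.rpow_neg_one, one_div]
    have hbd : ∀ n : ℕ, N ≤ n → 0 < 1 / (n : ℝ) ∧ 1 / (n : ℝ) ≤ 1 / (N : ℝ) := by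
      intro n hn
      have h1 : (N : ℝ) ≤ n := by exact_mod_cast hn
      exact ⟨one_div_pos.2 (by linarith), one_div_le_one_div_of_le (by linarith) h1⟩
    have hcount := h θ hθ T (hNT.trans hTN) Y (fun x hx => by
        obtain ⟨n, hn1, hn2, rfl⟩ := hmem x hx
        have h1 := hbd n hn1
        have h2 : 1 / (N : ℝ) ≤ 1 := by
          rw [div_le_one (by linarith)]
          exact hN1
        have hn0 : n ≠ 0 := by omega
        refine ⟨by push_cast; linarith, by push_cast; linarith, ?_⟩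
        have h3 : ((q : ℚ) + 1 / (n : ℚ)) = ((q * n + 1 : ℤ) : ℚ) / ((n : ℤ) : ℚ) := by
          have : (n : ℚ) ≠ 0 := by exact_mod_cast hn0
          push_cast
          field_simp
        have h4 : (((q : ℚ) + 1 / (n : ℚ)).den : ℤ) ∣ (n : ℤ) := by
          rw [h3, ← Rat.divInt_eq_div]
          exact Rat.den_dvd _ _
        have h5 : ((q : ℚ) + 1 / (n : ℚ)).den ≤ n := Nat.le_of_dvd (by omega) (by exact_mod_cast h4)
        calc (((q : ℚ) + 1 / (n : ℚ)).den : ℝ) ≤ n := by exact_mod_cast h5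
          _ ≤ (N : ℝ) ^ E := by exact_mod_cast hn2
          _ ≤ T := hTE) (fun x hx y hy => by
        obtain ⟨n, hn1, -, rfl⟩ := hmem x hx
        obtain ⟨n', hn1', -, rfl⟩ := hmem y hy
        have h1 := hbd n hn1
        have h2 := hbd n' hn1'
        rw [hrad, abs_le]
        push_cast
        constructor <;> linarith)
    refine le_trans ?_ hcount
    rw [← Set.ncard_image_of_injective _ hinj]
    refine Set.ncard_le_ncard ?_ (Y.finite_toSet.subset fun x hx => hx.1)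
    rintro _ ⟨n, ⟨hn1, hn2, z, ⟨p, hp0, hpm, hpH, hpz⟩, hz⟩, rfl⟩
    refine ⟨Finset.mem_image_of_mem _ (Finset.mem_Icc.2 ⟨hn1, hn2⟩), z, ⟨p, hp0, hpm, fun i => (hpH i).trans ?_, hpz⟩, ?_⟩
    · have h1 : (1 : ℝ) ≤ n := by exact_mod_cast (by omega : 1 ≤ n)
      calc (n : ℝ) ^ A ≤ (n : ℝ) ^ |A| := Real.rpow_le_rpow_of_exponent_le h1 (le_abs_self A)
        _ ≤ T ^ |A| := Real.rpow_le_rpow (by linarith) (by
            have : (n : ℝ) ≤ (N : ℝ) ^ E := by exact_mod_cast hn2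
            exact this.trans hTE) (abs_nonneg A)
    · have h1 : (((q : ℚ) + 1 / (n : ℚ) : ℚ) : ℂ) = (q : ℂ) + 1 / (n : ℂ) := by push_cast; rfl
      rw [h1]
      exact hz

end Pool.Agent.Results.MP_e47f08_nt.RationalExponents
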